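import Pool.Agent.Helper18.PS.St

/-! Project PS, module FIN: the final estimate. -/

set_option autoImplicit false

noncomputable section

namespace Pool.Agent.Helper11.PS

open Finset Filter Topology
open Nat (totient)
open Pool.Agent.Helper18.PS

theorem evt (K a b : ℝ) (k : ℕ) (hab : b < a) :
    ∀ᶠ t : ℝ in atTop, K * t ^ k * Real.exp (-(a * t)) ≤ Real.exp (-(b * t)) / 8 := by
  have hd : 0 < a - b := by linarith
  have h1 : Tendsto (fun x : ℝ => x ^ k * Real.exp (-x)) atTop (𝓝 0) :=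
    Real.tendsto_pow_mul_exp_neg_atTop_nhds_zero k
  have h2 : Tendsto (fun t : ℝ => (a - b) * t) atTop atTop :=
    Tendsto.const_mul_atTop hd tendsto_id
  have h3 := (h1.comp h2).const_mul (K * ((a - b) ^ k)⁻¹)
  rw [mul_zero] at h3
  have h4 := h3.eventually (gt_mem_nhds (show (0 : ℝ) < 1 / 8 by norm_num))
  filter_upwards [h4] with t ht
  simp only [Function.comp_apply] at ht
  have hdk : (a - b) ^ k ≠ 0 := (pow_pos hd k).ne'
  have e1 : K * ((a - b) ^ k)⁻¹ * (((a - b) * t) ^ k * Real.exp (-((a - b) * t))) =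
      K * t ^ k * Real.exp (-((a - b) * t)) := by
    rw [mul_pow]
    field_simp
  rw [e1] at ht
  have e2 : Real.exp (-(a * t)) = Real.exp (-((a - b) * t)) * Real.exp (-(b * t)) := by
    rw [← Real.exp_add]
    congr 1
    ring
  rw [e2]
  have h5 := Real.exp_pos (-(b * t))
  nlinarith

open Classical in
/-- FIN. -/
theorem hFIN (hC : StCLS) (h1 : StC1) (h2 : StC2) (h3 : StC3) (h4 : StC4) (h5 : StC5) :
    StFIN := by
  obtain ⟨C, hC0, y₀, h1⟩ := h1
  refine ⟨1 / 20, by norm_num, ?_⟩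
  have ev : ∀ᶠ t : ℝ in atTop, (1 ≤ t ∧ (y₀ : ℝ) ≤ t) ∧
      14 * C * t ^ 2 * Real.exp (-(1 / 14 * t)) ≤ Real.exp (-(1 / 20 * t)) / 8 ∧
      1 * t ^ 0 * Real.exp (-(1 * t)) ≤ Real.exp (-(1 / 20 * t)) / 8 ∧
      8 * t ^ 0 * Real.exp (-(2 / 5 * t)) ≤ Real.exp (-(1 / 20 * t)) / 8 ∧
      32 * t ^ 6 * Real.exp (-(1 * t)) ≤ Real.exp (-(1 / 20 * t)) / 8 ∧
      36 * t ^ 6 * Real.exp (-(1 * t)) ≤ Real.exp (-(1 / 20 * t)) / 8 := by
    filter_upwards [eventually_ge_atTop (1 : ℝ), eventually_ge_atTop (y₀ : ℝ),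
      evt (14 * C) (1 / 14) (1 / 20) 2 (by norm_num), evt 1 1 (1 / 20) 0 (by norm_num),
      evt 8 (2 / 5) (1 / 20) 0 (by norm_num), evt 32 1 (1 / 20) 6 (by norm_num),
      evt 36 1 (1 / 20) 6 (by norm_num)] with t a1 a2 a3 a4 a5 a6 a7
    exact ⟨⟨a1, a2⟩, a3, a4, a5, a6, a7⟩
  have htend : Tendsto (fun N : ℕ => Real.log N ^ (1 / 3 : ℝ)) atTop atTop :=
    (tendsto_rpow_atTop (by norm_num)).comp
      (Real.tendsto_log_atTop.comp tendsto_natCast_atTop_atTop)
  obtain ⟨N₀, hN₀⟩ := eventually_atTop.mp (htend.eventually ev)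
  refine ⟨max N₀ 1, fun N hN => ?_⟩
  have hN1 : 1 ≤ N := le_trans (le_max_right _ _) hN
  obtain ⟨⟨ht1, hty⟩, b1, b2, b3, b4, b5⟩ := hN₀ N (le_trans (le_max_left _ _) hN)
  have hlog0 : 0 ≤ Real.log N := Real.log_natCast_nonneg N
  have ht3 : Real.log N = (Real.log N ^ (1 / 3 : ℝ)) ^ 3 := by
    rw [← Real.rpow_natCast, ← Real.rpow_mul hlog0]
    norm_num
  obtain ⟨t, htd⟩ : ∃ t, t = Real.log N ^ (1 / 3 : ℝ) := ⟨_, rfl⟩
  rw [← htd] at ht3 ht1 hty b1 b2 b3 b4 b5 ⊢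
  obtain ⟨z, hz⟩ : ∃ z, z = ⌊Real.exp t⌋₊ := ⟨_, rfl⟩
  obtain ⟨L, hL⟩ : ∃ L, L = ⌈6 * t⌉₊ := ⟨_, rfl⟩
  obtain ⟨y, hy⟩ : ∃ y, y = (z + 1) ^ L := ⟨_, rfl⟩
  have ht0 : 0 < t := by linarith
  have hexp2 : 2 ≤ Real.exp t := by
    have := Real.add_one_le_exp t
    linarith
  have hz2 : 2 ≤ z := by
    rw [hz]
    exact Nat.le_floor (by exact_mod_cast hexp2)
  have hzle : (z : ℝ) ≤ Real.exp t := by rw [hz]; exact Nat.floor_le (Real.exp_pos t).le
  have hzlt : Real.exp t < (z : ℝ) + 1 := by rw [hz]; exact Nat.lt_floor_add_one _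
  have hz0 : (0 : ℝ) < z := by
    have : (2 : ℝ) ≤ z := by exact_mod_cast hz2
    linarith
  have hzhalf : Real.exp t / 2 ≤ z := by
    have : (2 : ℝ) ≤ z := by exact_mod_cast hz2
    linarith
  have hLge : 6 * t ≤ L := by rw [hL]; exact Nat.le_ceil _
  have hLlt : (L : ℝ) < 6 * t + 1 := by rw [hL]; exact Nat.ceil_lt_add_one (by positivity)
  have hlogy : Real.log y = L * Real.log ((z : ℝ) + 1) := by
    rw [hy]
    push_cast
    rw [Real.log_pow]
  have hlz1 : t ≤ Real.log ((z : ℝ) + 1) := by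
    rw [Real.le_log_iff_exp_le (by positivity)]
    exact hzlt.le
  have hlz2 : Real.log ((z : ℝ) + 1) ≤ t + 1 := by
    rw [Real.log_le_iff_le_exp (by positivity), Real.exp_add]
    have h : (2 : ℝ) ≤ Real.exp 1 := by
      have := Real.add_one_le_exp (1 : ℝ)
      linarith
    nlinarith
  have hly1 : 6 * t ^ 2 ≤ Real.log y := by
    rw [hlogy]
    have : 6 * t * t ≤ L * Real.log ((z : ℝ) + 1) :=
      mul_le_mul hLge hlz1 ht0.le (by positivity)
    nlinarith
  have hly2 : Real.log y ≤ 14 * t ^ 2 := by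
    rw [hlogy]
    have : L * Real.log ((z : ℝ) + 1) ≤ (6 * t + 1) * (t + 1) :=
      mul_le_mul hLlt.le hlz2 (by linarith) (by positivity)
    nlinarith
  have hly0 : 0 < Real.log y := by
    have : 0 < 6 * t ^ 2 := by positivity
    linarith
  have hypos : 0 < y := by rw [hy]; positivity
  have hyexp : Real.exp t ≤ y := by
    have h : t ≤ Real.log y := by nlinarith
    rwa [Real.le_log_iff_exp_le (by exact_mod_cast hypos)] at h
  have hyy : y₀ ≤ y := by
    have h : (y₀ : ℝ) ≤ y := by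
      have := Real.add_one_le_exp t
      linarith
    exact_mod_cast h
  have hy1 : 1 ≤ y := hypos
  have hNpos : (0 : ℝ) < N := by exact_mod_cast hN1
  -- the five bounds
  have c1 := h1 y N hyy hN1
  have c2 := h2 y N hy1
  have c3 := h3 y z L N (by omega) (by rw [hy])
  have c4 := h4 z N (by omega) hN1
  have c5 := h5 z N (by omega) hN1
  have hsub : (Icc 1 N).filter (fun n => Sol n ∧ ¬ Pr n) ⊆
      (((((Icc 1 N).filter (fun n => ∀ l : ℕ, l.Prime → l ∣ n → l ≤ y)) ∪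
      ((Icc 1 N).filter (fun n => ∃ p : ℕ, p.Prime ∧ y < p ∧ p ^ 2 ∣ n))) ∪
      ((Icc 1 N).filter (fun n => ∃ p : ℕ, p.Prime ∧ y < p ∧ p ∣ n ∧
        ∀ r : ℕ, r.Prime → r ∣ p + 1 → r ≤ z))) ∪
      ((Icc 1 N).filter (fun n =>
        (∃ p q r : ℕ, p.Prime ∧ q.Prime ∧ r.Prime ∧ z < r ∧ r ∣ p + 1 ∧ r ∣ q - 1 ∧ p * q ∣ n) ∨
        ∃ p r : ℕ, p.Prime ∧ r.Prime ∧ z < r ∧ r ∣ p + 1 ∧ p * r ^ 2 ∣ n))) ∪
      ((Icc 1 N).filter (fun n => E5 z n)) := by
    intro n hn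
    rw [mem_filter] at hn
    obtain ⟨hn1, hs, hp⟩ := hn
    have hn1' := (mem_Icc.mp hn1).1
    simp only [mem_union, mem_filter]
    rcases hC y z n hz2 hn1' hs with h | h | h | h | h | h
    · exact absurd h hp
    · exact Or.inl (Or.inl (Or.inl (Or.inl ⟨hn1, h⟩)))
    · exact Or.inl (Or.inl (Or.inl (Or.inr ⟨hn1, h⟩)))
    · exact Or.inl (Or.inl (Or.inr ⟨hn1, h⟩))
    · exact Or.inl (Or.inr ⟨hn1, h⟩)
    · exact Or.inr ⟨hn1, h⟩
  have hcard := le_trans (card_le_card hsub) (le_trans (card_union_le _ _)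
    (add_le_add (le_trans (card_union_le _ _) (add_le_add (le_trans (card_union_le _ _)
      (add_le_add (card_union_le _ _) le_rfl)) le_rfl)) le_rfl))
  have hcard' := (Nat.cast_le (α := ℝ)).mpr hcard
  push_cast at hcard'
  refine le_trans hcard' ?_
  have hexpt : Real.exp (-(1 * t)) = (Real.exp t)⁻¹ := by rw [one_mul, Real.exp_neg]
  -- C1
  have d1 : C * N * Real.log y * Real.exp (-(Real.log N / Real.log y)) ≤
      N * (Real.exp (-(1 / 20 * t)) / 8) := by
    have e1 : Real.exp (-(Real.log N / Real.log y)) ≤ Real.exp (-(1 / 14 * t)) := by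
      apply Real.exp_le_exp.mpr
      have : 1 / 14 * t ≤ Real.log N / Real.log y := by
        rw [le_div_iff₀ hly0, ht3]
        calc 1 / 14 * t * Real.log y ≤ 1 / 14 * t * (14 * t ^ 2) := by gcongr
          _ = t ^ 3 := by ring
      linarith
    calc C * N * Real.log y * Real.exp (-(Real.log N / Real.log y))
        ≤ C * N * (14 * t ^ 2) * Real.exp (-(1 / 14 * t)) := by gcongr
      _ = N * (14 * C * t ^ 2 * Real.exp (-(1 / 14 * t))) := by ring
      _ ≤ _ := by gcongr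
  -- C2
  have d2 : (N : ℝ) / y ≤ N * (Real.exp (-(1 / 20 * t)) / 8) := by
    calc (N : ℝ) / y ≤ N / Real.exp t := by gcongr
      _ = N * (1 * t ^ 0 * Real.exp (-(1 * t))) := by rw [hexpt]; simp [div_eq_mul_inv]
      _ ≤ _ := by gcongr
  -- C3
  have d3 : 2 * N * (((z : ℝ) + 1) ^ 2 * (2 / 3) ^ L) ≤ N * (Real.exp (-(1 / 20 * t)) / 8) := by
    have e1 : ((2 : ℝ) / 3) ^ L ≤ Real.exp (-(12 / 5 * t)) := by
      have e2 : (2 : ℝ) / 3 ≤ Real.exp (-(2 / 5)) := by
        rw [Real.exp_neg, ← one_div, div_le_div_iff₀ (by norm_num) (Real.exp_pos _)]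
        have h9 : Real.exp (2 / 5 : ℝ) ^ 5 ≤ (3 / 2 : ℝ) ^ 5 := by
          rw [← Real.exp_nat_mul]
          have h10 : ((5 : ℕ) : ℝ) * (2 / 5) = 1 + 1 := by norm_num
          rw [h10, Real.exp_add]
          have h11 := Real.exp_one_lt_d9
          have h12 := Real.exp_pos 1
          nlinarith
        have h13 : Real.exp (2 / 5 : ℝ) ≤ 3 / 2 :=
          le_of_pow_le_pow_left₀ (by norm_num) (by norm_num) h9
        linarith
      calc ((2 : ℝ) / 3) ^ L ≤ Real.exp (-(2 / 5)) ^ L := by gcongr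
        _ = Real.exp (L * (-(2 / 5))) := (Real.exp_nat_mul _ _).symm
        _ ≤ _ := by
          apply Real.exp_le_exp.mpr
          nlinarith
    have e3 : ((z : ℝ) + 1) ^ 2 ≤ 4 * Real.exp (2 * t) := by
      have e4 : (z : ℝ) + 1 ≤ 2 * Real.exp t := by linarith
      calc ((z : ℝ) + 1) ^ 2 ≤ (2 * Real.exp t) ^ 2 := by gcongr
        _ = 4 * Real.exp (2 * t) := by
          rw [mul_pow, ← Real.exp_nat_mul]
          norm_num
    calc 2 * N * (((z : ℝ) + 1) ^ 2 * (2 / 3) ^ L)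
        ≤ 2 * N * (4 * Real.exp (2 * t) * Real.exp (-(12 / 5 * t))) := by gcongr
      _ = N * (8 * t ^ 0 * Real.exp (-(2 / 5 * t))) := by
          have : Real.exp (-(2 / 5 * t)) = Real.exp (2 * t) * Real.exp (-(12 / 5 * t)) := by
            rw [← Real.exp_add]
            congr 1
            ring
          rw [this]
          ring
      _ ≤ _ := by gcongr
  -- C4
  have d4 : 4 * N * (1 + Real.log N) ^ 2 / z ≤ N * (Real.exp (-(1 / 20 * t)) / 8) := by
    have e1 : 1 + Real.log N ≤ 2 * t ^ 3 := by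
      rw [ht3]
      have : 1 ≤ t ^ 3 := one_le_pow₀ ht1
      linarith
    calc 4 * N * (1 + Real.log N) ^ 2 / z
        ≤ 4 * N * (2 * t ^ 3) ^ 2 / (Real.exp t / 2) := by gcongr
      _ = N * (32 * t ^ 6 * Real.exp (-(1 * t))) := by
          rw [hexpt]
          field_simp
          ring
      _ ≤ _ := by gcongr
  -- C5
  have d5 : 2 * N / z * (1 + Real.log (2 * N)) ^ 2 ≤ N * (Real.exp (-(1 / 20 * t)) / 8) := by
    have e1 : 1 + Real.log (2 * N) ≤ 3 * t ^ 3 := by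
      rw [Real.log_mul (by norm_num) hNpos.ne', ht3]
      have h : 1 ≤ t ^ 3 := one_le_pow₀ ht1
      have h2 : Real.log 2 ≤ 1 := by
        have := Real.log_two_lt_d9
        linarith
      linarith
    have e0 : 0 ≤ 1 + Real.log (2 * N) := by
      rw [Real.log_mul (by norm_num) hNpos.ne']
      have h2 : 0 ≤ Real.log 2 := Real.log_nonneg (by norm_num)
      linarith
    calc 2 * N / z * (1 + Real.log (2 * N)) ^ 2
        ≤ 2 * N / (Real.exp t / 2) * (3 * t ^ 3) ^ 2 := by gcongr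
      _ = N * (36 * t ^ 6 * Real.exp (-(1 * t))) := by
          rw [hexpt]
          field_simp
          ring
      _ ≤ _ := by gcongr
  have hfin : (0 : ℝ) < N * Real.exp (-(1 / 20 * t)) := by positivity
  have hsum : N * (Real.exp (-(1 / 20 * t)) / 8) = N * Real.exp (-(1 / 20 * t)) / 8 := by ring
  linarith

end Pool.Agent.Helper11.PS
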